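import Pool.Agent.W559.Et.Stm6

/-!
Statements of the lemmas of the project Wr: quotients of powers of smooth projective varieties by
iterated wreath products.
-/

set_option autoImplicit false
set_option linter.unusedSectionVars false

open AlgebraicGeometry CategoryTheory TensorProduct

universe u v w

namespace Pool.Agent.W559.Wr

/-- The field extension `F` of `k` is the function field of a smooth projective variety. -/
def SPM (k F : Type u) [Field k] [Field F] [Algebra k F] : Prop :=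
  ∃ (l : ℕ) (z : Fin (l + 1) → F), (∀ i, z i ≠ 0) ∧
    (∀ i, Algebra.Smooth k (Algebra.adjoin k (Set.range fun j => z j / z i))) ∧
    IntermediateField.adjoin k (Set.range fun j => z j / z 0) = ⊤

section

variable {k M : Type u} [Field k] [Field M] [Algebra k M]

/-- The linear map from the tensor product of the `K j` to `M` which maps `⨂ x j` to the product of
the `e j (x j)`. -/
noncomputable def mulM {J : Type} [Fintype J] {K : J → Type u} [∀ j, Field (K j)]
    [∀ j, Algebra k (K j)] (e : ∀ j, K j →ₐ[k] M) : (⨂[k] j, K j) →ₗ[k] M :=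
  PiTensorProduct.lift ((MultilinearMap.mkPiAlgebra k J M).compLinearMap
    fun j => (e j).toLinearMap)

/-- The images of the `e j` are linearly disjoint. -/
def LDis {J : Type} [Fintype J] {K : J → Type u} [∀ j, Field (K j)]
    [∀ j, Algebra k (K j)] (e : ∀ j, K j →ₐ[k] M) : Prop := Function.Injective (mulM e)

/-- The automorphisms of `M` which permute the copies `e i (K)` of `K` by an element of `P`. -/
def permGrp {K : Type u} [Field K] [Algebra k K] {ι : Type} (e : ι → K →ₐ[k] M)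
    (P : Subgroup (Equiv.Perm ι)) : Subgroup (M ≃ₐ[k] M) where
  carrier := {σ | ∃ g ∈ P, ∀ i x, σ (e i x) = e (g i) x}
  mul_mem' := by
    rintro σ τ ⟨g, hg, h⟩ ⟨g', hg', h'⟩
    refine ⟨g * g', P.mul_mem hg hg', fun i x => ?_⟩
    rw [AlgEquiv.mul_apply, h', h]
    rfl
  one_mem' := ⟨1, P.one_mem, fun i x => rfl⟩
  inv_mem' := by
    rintro σ ⟨g, hg, h⟩
    refine ⟨g⁻¹, P.inv_mem hg, fun i x => ?_⟩
    apply σ.injective
    rw [h, ← AlgEquiv.mul_apply, mul_inv_cancel]
    change e i x = e (g (g⁻¹ i)) x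
    rw [← Equiv.Perm.mul_apply, mul_inv_cancel]
    rfl

end

/-- The quotient of the `ι`-th power of a smooth projective variety by the permutation group `P`
has a smooth projective model: for every function field `K` of a smooth projective variety and
every field `M` generated by linearly disjoint copies `e i (K)` of `K`, the field of invariants of
the automorphisms of `M` given by the elements of `P` is the function field of a smooth projective
variety. -/
def QQ (k : Type u) [Field k] (ι : Type) [Fintype ι] (P : Subgroup (Equiv.Perm ι)) : Prop :=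
  ∀ (K M : Type u) [Field K] [Algebra k K] [Field M] [Algebra k M] (e : ι → K →ₐ[k] M),
    LDis e → ⨆ i, (e i).fieldRange = ⊤ → SPM k K →
    SPM k (IntermediateField.fixedField (permGrp e P))

/-- The product of two permutation groups on the disjoint union. -/
def prodGrp {ι ι' : Type} (P : Subgroup (Equiv.Perm ι)) (P' : Subgroup (Equiv.Perm ι')) :
    Subgroup (Equiv.Perm (ι ⊕ ι')) where
  carrier := {f | ∃ g ∈ P, ∃ g' ∈ P', (∀ i, f (Sum.inl i) = Sum.inl (g i)) ∧
    ∀ i, f (Sum.inr i) = Sum.inr (g' i)}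
  mul_mem' := by
    rintro f f' ⟨g, hg, g', hg', h1, h2⟩ ⟨a, ha, a', ha', h3, h4⟩
    refine ⟨g * a, P.mul_mem hg ha, g' * a', P'.mul_mem hg' ha', fun i => ?_, fun i => ?_⟩
    · rw [Equiv.Perm.mul_apply, h3, h1]; rfl
    · rw [Equiv.Perm.mul_apply, h4, h2]; rfl
  one_mem' := ⟨1, P.one_mem, 1, P'.one_mem, fun i => rfl, fun i => rfl⟩
  inv_mem' := by
    rintro f ⟨g, hg, g', hg', h1, h2⟩
    refine ⟨g⁻¹, P.inv_mem hg, g'⁻¹, P'.inv_mem hg', fun i => ?_, fun i => ?_⟩
    · rw [Equiv.Perm.inv_eq_iff_eq, h1, ← Equiv.Perm.mul_apply, mul_inv_cancel]; rfl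
    · rw [Equiv.Perm.inv_eq_iff_eq, h2, ← Equiv.Perm.mul_apply, mul_inv_cancel]; rfl

/-- The wreath product of two permutation groups in its action on the product: it consists of the
permutations `(i, j) ↦ (g j (i), h (j))` with `g j` in `P` and `h` in `P'`. -/
def wrGrp {ι ι' : Type} (P : Subgroup (Equiv.Perm ι)) (P' : Subgroup (Equiv.Perm ι')) :
    Subgroup (Equiv.Perm (ι × ι')) where
  carrier := {f | ∃ h ∈ P', ∃ g : ι' → Equiv.Perm ι, (∀ j, g j ∈ P) ∧
    ∀ i j, f (i, j) = (g j i, h j)}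
  mul_mem' := by
    rintro f f' ⟨h, hh, g, hg, h1⟩ ⟨a, ha, b, hb, h2⟩
    refine ⟨h * a, P'.mul_mem hh ha, fun j => g (a j) * b j,
      fun j => P.mul_mem (hg _) (hb _), fun i j => ?_⟩
    rw [Equiv.Perm.mul_apply, h2, h1]; rfl
  one_mem' := ⟨1, P'.one_mem, fun _ => 1, fun _ => P.one_mem, fun i j => rfl⟩
  inv_mem' := by
    rintro f ⟨h, hh, g, hg, h1⟩
    refine ⟨h⁻¹, P'.inv_mem hh, fun j => (g (h⁻¹ j))⁻¹, fun j => P.inv_mem (hg _),
      fun i j => ?_⟩
    rw [Equiv.Perm.inv_eq_iff_eq, h1, ← Equiv.Perm.mul_apply, mul_inv_cancel,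
      ← Equiv.Perm.mul_apply, mul_inv_cancel]; rfl

/-- A smooth projective model in the sense of `H920R2.ModelG` gives a smooth projective variety
with the function field `Kf`. -/
def ConvStm : Prop := ∀ (k K : Type u) [Field k] [Field K] [Algebra k K]
  (L : IntermediateField k K) (𝒜 : Type) (W : 𝒜 → Set K),
  (∀ a, ∀ x ∈ L, ∃ y ∈ W a, ∃ y' ∈ W a, y' ≠ 0 ∧ x = y / y') → ∀ (I : Type u) [Finite I]
  (z : I → K) (J : Set I), H920R2.ModelG k W L.toSubfield z J → SPM k L

/-- Invariance under isomorphism. -/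
def IsoStm : Prop := ∀ (k F F' : Type u) [Field k] [Field F] [Algebra k F] [Field F']
  [Algebra k F'], (F ≃ₐ[k] F') → SPM k F → SPM k F'

/-- Products of smooth projective varieties. -/
def ProdStm : Prop := ∀ (k M : Type u) [Field k] [Field M] [Algebra k M]
  (F F' : IntermediateField k M), F ⊔ F' = ⊤ → F.LinearDisjoint F' → SPM k F → SPM k F' →
  SPM k M

/-- Cyclic permutation groups. -/
def CycStm : Prop := ∀ (k : Type u) [Field k] (p m : ℕ), p.Prime → (p : k) = 0 →
  (m : k) ≠ 0 → (∃ ζ : k, IsPrimitiveRoot ζ m) → ∀ (n : ℕ) (π : Equiv.Perm (Fin n)),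
  π ^ (p * p * m) = 1 → QQ k (Fin n) (Subgroup.zpowers π)

/-- Permutations of the factors exist. -/
def LiftStm : Prop := ∀ (k K M : Type u) [Field k] [Field K] [Algebra k K] [Field M] [Algebra k M]
  (ι : Type) [Fintype ι] (e : ι → K →ₐ[k] M), LDis e → ⨆ i, (e i).fieldRange = ⊤ →
  ∀ g : Equiv.Perm ι, ∃ σ : M ≃ₐ[k] M, ∀ i x, σ (e i x) = e (g i) x

/-- Grouping of the factors. -/
def GroupStm : Prop := ∀ (k M : Type u) [Field k] [Field M] [Algebra k M] (I J : Type)
  [Fintype I] [Fintype J] (K : I → Type u) [∀ i, Field (K i)] [∀ i, Algebra k (K i)]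
  (e : ∀ i, K i →ₐ[k] M), LDis e → ∀ f : I → J,
  LDis fun j => (⨆ i : {i // f i = j}, (e i).fieldRange : IntermediateField k M).val

/-- Restriction to subfields and to a subset of the index set. -/
def ResStm : Prop := ∀ (k M : Type u) [Field k] [Field M] [Algebra k M] (I J : Type)
  [Fintype I] [Fintype J] (K : I → Type u) [∀ i, Field (K i)] [∀ i, Algebra k (K i)]
  (e : ∀ i, K i →ₐ[k] M), LDis e → ∀ (f : J → I), Function.Injective f →
  ∀ (K' : J → Type u) [∀ j, Field (K' j)] [∀ j, Algebra k (K' j)]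
  (r : ∀ j, K' j →ₐ[k] K (f j)), LDis fun j => (e (f j)).comp (r j)

/-- The invariants of a product of groups. -/
def GalStm : Prop := ∀ (k M : Type u) [Field k] [Field M] [Algebra k M] (J : Type) [Fintype J]
  (G : J → Subgroup (M ≃ₐ[k] M)) [∀ j, Finite (G j)] (L : J → IntermediateField k M),
  (∀ j, ∀ σ ∈ G j, ∀ x ∈ L j, σ x ∈ L j) →
  (∀ j j', j ≠ j' → ∀ σ ∈ G j, ∀ x ∈ L j', σ x = x) → ⨆ j, L j = ⊤ →
  IntermediateField.fixedField (⨆ j, G j) =
    ⨆ j, L j ⊓ IntermediateField.fixedField (G j)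

/-- Relabelling of the factors. -/
def RelStm : Prop := ∀ (k : Type u) [Field k] (ι ι' : Type) [Fintype ι] [Fintype ι']
  (f : ι ≃ ι') (P : Subgroup (Equiv.Perm ι)), QQ k ι P →
  QQ k ι' (P.map (f.permCongrHom : Equiv.Perm ι ≃* Equiv.Perm ι').toMonoidHom)

/-- Products of permutation groups. -/
def SumStm : Prop := ∀ (k : Type u) [Field k] (ι ι' : Type) [Fintype ι] [Fintype ι']
  (P : Subgroup (Equiv.Perm ι)) (P' : Subgroup (Equiv.Perm ι')), QQ k ι P → QQ k ι' P' →
  QQ k (ι ⊕ ι') (prodGrp P P')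

/-- Wreath products of permutation groups. -/
def WrStm : Prop := ∀ (k : Type u) [Field k] (ι ι' : Type) [Fintype ι] [Fintype ι']
  (P : Subgroup (Equiv.Perm ι)) (P' : Subgroup (Equiv.Perm ι')), QQ k ι P → QQ k ι' P' →
  QQ k (ι × ι') (wrGrp P P')

/-- Sylow subgroups of symmetric groups. -/
def SylStm : Prop := ∀ (k : Type u) [Field k] (p : ℕ) [Fact p.Prime], (p : k) = 0 → ∀ (n : ℕ)
  (P : Sylow p (Equiv.Perm (Fin n))), QQ k (Fin n) P

end Pool.Agent.W559.Wr
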