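import Pool.Agent.W559.Wr.Fin
import Pool.Agent.W559.Et.All
import Pool.Agent.W251.Wr.Conv
import Pool.Agent.W305.Wr.Iso
import Pool.Agent.W405.WR.Prod
import Pool.Agent.W45.WR.Lift
import Pool.Agent.W327.Wr.Group
import Pool.Agent.W22.WR.Res
import Pool.Agent.W177.Wr.Gal
import Pool.Agent.W214.Wr.Cyc
import Pool.Agent.W239.Wr.Rel
import Pool.Agent.W632.Wr.Sum
import Pool.Agent.W933.WR_Syl
import Pool.Agent.W230.WR.Wr

/-!
Assembly of the lemmas of the project Wr.
-/

set_option autoImplicit false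
set_option linter.unusedSectionVars false

open AlgebraicGeometry CategoryTheory TensorProduct

universe u

namespace Pool.Agent.W559.Wr

theorem cyc' : CycStm.{u} := Pool.Agent.W214.Wr.cyc Pool.Agent.W45.WR.liftStm
  Pool.Agent.W251.Wr.conv Pool.Agent.W559.Et.main' Pool.Agent.W85.Et.grp Pool.Agent.W559.Et.pow'
  Pool.Agent.W440.ET.model

theorem sum' : SumStm.{u} := Pool.Agent.W632.Wr.sum_stm Pool.Agent.W45.WR.liftStm
  Pool.Agent.W327.Wr.group Pool.Agent.W22.WR.res Pool.Agent.W177.Wr.gal Pool.Agent.W405.WR.prod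
  Pool.Agent.W305.Wr.iso

theorem wr' : WrStm.{u} := Pool.Agent.W230.WR.wrStm Pool.Agent.W45.WR.liftStm
  Pool.Agent.W327.Wr.group Pool.Agent.W22.WR.res Pool.Agent.W177.Wr.gal Pool.Agent.W305.Wr.iso

theorem rel' : RelStm.{u} := Pool.Agent.W239.WrRel.main

theorem syl' : SylStm.{u} := Pool.Agent.W933.WrSyl.syl cyc' sum' wr' rel'

theorem qq_tow {k : Type u} [Field k] {p m : ℕ} (hp : p.Prime) (hpk : (p : k) = 0)
    (hm : (m : k) ≠ 0) (hζ : ∃ ζ : k, IsPrimitiveRoot ζ m) {ι : Type}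
    {P : Subgroup (Equiv.Perm ι)} (h : Tow (p * p * m) ι P) : ∀ i : Fintype ι, QQ k ι P :=
  qq_of_tow cyc' sum' wr' rel' hp hpk hm hζ h

theorem qq_sylow {k : Type u} [Field k] {p : ℕ} [Fact p.Prime] (hpk : (p : k) = 0) {ι : Type}
    [Fintype ι] (S : Sylow p (Equiv.Perm ι)) : QQ k ι S := by
  classical
  let f : ι ≃ Fin (Fintype.card ι) := Fintype.equivFin ι
  let E : Equiv.Perm ι ≃* Equiv.Perm (Fin (Fintype.card ι)) := f.permCongrHom
  let S' : Sylow p (Equiv.Perm (Fin (Fintype.card ι))) := S.comapOfInjective E.symm.toMonoidHom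
    E.symm.injective (by
      intro x _
      exact ⟨E x, E.symm_apply_apply x⟩)
  have h1 := rel' k (Fin (Fintype.card ι)) ι f.symm S' (syl' k p hpk _ S')
  have h2 : (S' : Subgroup (Equiv.Perm (Fin (Fintype.card ι)))).map
      (f.symm.permCongrHom : Equiv.Perm (Fin (Fintype.card ι)) ≃* Equiv.Perm ι).toMonoidHom =
      (S : Subgroup (Equiv.Perm ι)) := by
    ext x
    constructor
    · rintro ⟨y, hy, rfl⟩
      exact hy
    · intro hx
      refine ⟨E x, ?_, ?_⟩
      · change E.symm (E x) ∈ (S : Subgroup (Equiv.Perm ι))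
        rw [E.symm_apply_apply]
        exact hx
      · change E.symm (E x) = x
        exact E.symm_apply_apply x
  rw [h2] at h1
  exact h1

end Pool.Agent.W559.Wr
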