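import Pool.Agent.W559.Wr.Stm

/-!
Statements of the lemmas of the project Wr, relative version: quotients of powers of varieties
with a projective resolution by iterated wreath products.
-/

set_option autoImplicit false
set_option linter.unusedSectionVars false

open AlgebraicGeometry CategoryTheory TensorProduct

universe u v w

namespace Pool.Agent.W559.Wr

open Pool.Agent.W559.Et Pool.Agent.W559.Mg

/-- There is a smooth projective scheme over `Spec A` with function field `F`: it has the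
homogeneous coordinates `z i` and the charts `A[z 0 / z i, …, z l / z i]`. -/
def SPMR (k F : Type u) [Field k] [Field F] [Algebra k F] (A : Subalgebra k F) : Prop :=
  ∃ (l : ℕ) (z : Fin (l + 1) → F), (∀ i, z i ≠ 0) ∧
    (∀ i, Algebra.Smooth k
      (A ⊔ Algebra.adjoin k (Set.range fun j => z j / z i) : Subalgebra k F)) ∧
    IntermediateField.adjoin k ((A : Set F) ∪ Set.range fun j => z j / z 0) = ⊤

/-- The relative version of `QQ`. -/
def QQR (k : Type u) [Field k] (ι : Type) [Fintype ι] (P : Subgroup (Equiv.Perm ι)) : Prop :=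
  ∀ (K M : Type u) [Field K] [Algebra k K] [Field M] [Algebra k M] (e : ι → K →ₐ[k] M),
    LDis e → ⨆ i, (e i).fieldRange = ⊤ → ∀ A : Subalgebra k K, SPMR k K A →
    SPMR k (IntermediateField.fixedField (permGrp e P))
      ((⨆ i, A.map (e i)).comap (IntermediateField.fixedField (permGrp e P)).val)

/-- The affine atlas of a power, relative version of `Et.PowStm`. -/
def PowRStm : Prop := ∀ (k K L : Type u) [Field k] [Field K] [Algebra k K] [Field L] [Algebra k L]
  (l n : ℕ) (z : Fin (l + 1) → K) (A : Subalgebra k K), (∀ i, z i ≠ 0) →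
  (∀ i, Algebra.Smooth k
    (A ⊔ Algebra.adjoin k (Set.range fun j => z j / z i) : Subalgebra k K)) →
  IntermediateField.adjoin k ((A : Set K) ∪ Set.range fun j => z j / z 0) = ⊤ →
  ∀ (e : Fin n → K →ₐ[k] L) (g : (⨂[k] _ : Fin n, K) →ₐ[k] L),
  (∀ i x, g (PiTensorProduct.singleAlgHom (R := k) (A := fun _ : Fin n => K) i x) = e i x) →
  Function.Injective g → (∀ x : L, ∃ a b, g b ≠ 0 ∧ x = g a / g b) →
  ∀ (γ h : L →ₐ[k] L) (π π' : Equiv.Perm (Fin n)), (∀ i x, γ (e i x) = e (π i) x) →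
  (∀ i x, h (e i x) = e (π' i) x) → ∀ (p M : ℕ) (ω : k), GD γ h p M ω →
  ∀ (Kf : IntermediateField k L), (∀ x, x ∈ Kf ↔ γ x = x ∧ h x = x) →
  ∀ (A₀ : Subalgebra k L), (∀ x, x ∈ A₀ ↔ x ∈ (⨆ i, A.map (e i) : Subalgebra k L) ∧ x ∈ Kf) →
  ∃ (N : ℕ) (W : Fin N → Set L)
    (_ : ∀ a, ∀ x ∈ Kf, ∃ y ∈ W a, ∃ y' ∈ W a, y' ≠ 0 ∧ x = y / y')
    (_ : ∀ a, ∀ x ∈ A₀, x ∈ W a)
    (B : ULift.{u} (Fin N) → Subalgebra k L) (H : ULift.{u} (Fin N) → L),
    AA {V | ∀ x ∈ A₀, x ∈ V} Kf.toSubfield W γ h B H ∧ (∀ t, Algebra.Smooth k (B t)) ∧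
    (∀ t, LL γ (B t)) ∧ ∀ t, LL (γ ^ p) (B t)

/-- An atlas without gradings gives a projective model. -/
def MbStm : Prop := ∀ (k K : Type u) [Field k] [Field K] [Algebra k K]
  (L : IntermediateField k K) (𝒜 : Type) (W : 𝒜 → Set K),
  (∀ a, ∀ x ∈ L, ∃ y ∈ W a, ∃ y' ∈ W a, y' ≠ 0 ∧ x = y / y') →
  ∀ (A₀ : Subalgebra k K), (∀ x ∈ A₀, x ∈ L) → (∀ a, ∀ x ∈ A₀, x ∈ W a) →
  ∀ (T : Type u) [Finite T] (E : ℕ) (C : T → Subalgebra k (ML K Unit)) (H : T → K),
  MB {V | ∀ x ∈ A₀, x ∈ V} L.toSubfield W E C H → SPMR k L (A₀.comap L.val)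

/-- Invariance under isomorphism. -/
def IsoRStm : Prop := ∀ (k F F' : Type u) [Field k] [Field F] [Algebra k F] [Field F']
  [Algebra k F'] (f : F ≃ₐ[k] F') (A : Subalgebra k F), SPMR k F A →
  SPMR k F' (A.map (f : F →ₐ[k] F'))

/-- Products. -/
def ProdRStm : Prop := ∀ (k M : Type u) [Field k] [Field M] [Algebra k M]
  (F F' : IntermediateField k M), F ⊔ F' = ⊤ → F.LinearDisjoint F' → ∀ (A : Subalgebra k F)
  (A' : Subalgebra k F'), SPMR k F A → SPMR k F' A' → SPMR k M (A.map F.val ⊔ A'.map F'.val)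

/-- The invariants of a product of groups on a product of algebras. -/
def InvStm : Prop := ∀ (k M : Type u) [Field k] [Field M] [Algebra k M] (J : Type) [Fintype J]
  (G : J → Subgroup (M ≃ₐ[k] M)) (L : J → IntermediateField k M),
  LDis (fun j => (L j).val) → ∀ D : J → Subalgebra k M, (∀ j, ∀ x ∈ D j, x ∈ L j) →
  (∀ j, ∀ σ ∈ G j, ∀ x ∈ D j, σ x ∈ D j) →
  (∀ j j', j ≠ j' → ∀ σ ∈ G j, ∀ x ∈ L j', σ x = x) →
  ∀ x ∈ ⨆ j, D j, (∀ j, ∀ σ ∈ G j, σ x = x) →
  x ∈ ⨆ j, D j ⊓ (IntermediateField.fixedField (G j)).toSubalgebra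

/-- Cyclic permutation groups. -/
def CycRStm : Prop := ∀ (k : Type u) [Field k] (p m : ℕ), p.Prime → (p : k) = 0 →
  (m : k) ≠ 0 → (∃ ζ : k, IsPrimitiveRoot ζ m) → ∀ (n : ℕ) (π : Equiv.Perm (Fin n)),
  π ^ (p * p * m) = 1 → QQR k (Fin n) (Subgroup.zpowers π)

/-- Relabelling of the factors. -/
def RelRStm : Prop := ∀ (k : Type u) [Field k] (ι ι' : Type) [Fintype ι] [Fintype ι']
  (f : ι ≃ ι') (P : Subgroup (Equiv.Perm ι)), QQR k ι P →
  QQR k ι' (P.map (f.permCongrHom : Equiv.Perm ι ≃* Equiv.Perm ι').toMonoidHom)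

/-- Products of permutation groups. -/
def SumRStm : Prop := ∀ (k : Type u) [Field k] (ι ι' : Type) [Fintype ι] [Fintype ι']
  (P : Subgroup (Equiv.Perm ι)) (P' : Subgroup (Equiv.Perm ι')), QQR k ι P → QQR k ι' P' →
  QQR k (ι ⊕ ι') (prodGrp P P')

/-- Wreath products of permutation groups. -/
def WrRStm : Prop := ∀ (k : Type u) [Field k] (ι ι' : Type) [Fintype ι] [Fintype ι']
  (P : Subgroup (Equiv.Perm ι)) (P' : Subgroup (Equiv.Perm ι')), QQR k ι P → QQR k ι' P' →
  QQR k (ι × ι') (wrGrp P P')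

/-- Sylow subgroups of symmetric groups. -/
def SylRStm : Prop := ∀ (k : Type u) [Field k] (p : ℕ) [Fact p.Prime], (p : k) = 0 → ∀ (n : ℕ)
  (P : Sylow p (Equiv.Perm (Fin n))), QQR k (Fin n) P

/-- Resolution of singularities from a smooth projective model over an affine variety. -/
def ResolRStm : Prop := ∀ (k A K : Type u) [Field k] [Field K] [Algebra k K] [CommRing A]
  [IsDomain A] [Algebra k A] (g : A →ₐ[k] K), Function.Injective g →
  (∀ x : K, ∃ a b, g b ≠ 0 ∧ x = g a / g b) → SPMR k K g.range →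
  H920R2.HasResolution (X := Spec (CommRingCat.of A))
    (Spec.map (CommRingCat.ofHom (algebraMap k A)))

/-- The conclusion for the quotients of powers of an affine variety `Spec A`: if `Spec A` has a
projective resolution then so does the quotient of its `n`-th power by `P`. -/
def FinRStm : Prop := ∀ (k A : Type u) [Field k] [CommRing A] [IsDomain A] [Algebra k A],
  SPMR k (FractionRing A) (IsScalarTower.toAlgHom k A (FractionRing A)).range →
  ∀ (n : ℕ) [IsDomain (⨂[k] _ : Fin n, A)] (P : Subgroup (Equiv.Perm (Fin n))),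
  QQR k (Fin n) P → ∀ S : Subalgebra k (⨂[k] _ : Fin n, A),
  (∀ x, x ∈ S ↔ ∀ σ : (⨂[k] _ : Fin n, A) ≃ₐ[k] (⨂[k] _ : Fin n, A), (∃ g ∈ P, ∀ i a,
    σ (PiTensorProduct.singleAlgHom (R := k) (A := fun _ : Fin n => A) i a) =
      PiTensorProduct.singleAlgHom (R := k) (A := fun _ : Fin n => A) (g i) a) → σ x = x) →
  H920R2.HasResolution (X := Spec (CommRingCat.of S))
    (Spec.map (CommRingCat.ofHom (algebraMap k S)))

end Pool.Agent.W559.Wr
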