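import Pool.Agent.W559.Wr.All
import Pool.Agent.W559.Wr.StmR
import Pool.Agent.W591.WRR.Resol
import Pool.Agent.W469.WR.Mb
import Pool.Agent.W381.WRR.Pow
import Pool.Agent.W469.WR.IsoR
import Pool.Agent.W790.WR.ProdR
import Pool.Agent.W460.Wr.Inv
import Pool.Agent.W382.Wr.Cyc
import Pool.Agent.W366.WR.RelR
import Pool.Agent.W351.WR.Wreath
import Pool.Agent.W125.Wr.Syl
import Pool.Agent.W377.Wr.Sum

/-!
Assembly of the lemmas of the project Wr, relative version.
-/

set_option autoImplicit false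
set_option linter.unusedSectionVars false

open AlgebraicGeometry CategoryTheory TensorProduct

universe u

namespace Pool.Agent.W559.Wr

theorem cycR' : CycRStm.{u} := Pool.Agent.W382.Wr.Cyc.x Pool.Agent.W45.WR.liftStm
  Pool.Agent.W381.WRR.powR Pool.Agent.W469.WR.Mb.mb Pool.Agent.W559.Et.main'
  Pool.Agent.W85.Et.grp

theorem sumR' : SumRStm.{u} := Pool.Agent.W377.Wr.sumR Pool.Agent.W45.WR.liftStm
  Pool.Agent.W327.Wr.group Pool.Agent.W22.WR.res Pool.Agent.W177.Wr.gal
  Pool.Agent.W460.Wr.inv Pool.Agent.W790.WR.prodR Pool.Agent.W469.WR.IsoR.isoR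

theorem wrR' : WrRStm.{u} := Pool.Agent.W351.WR.wr Pool.Agent.W45.WR.liftStm
  Pool.Agent.W327.Wr.group Pool.Agent.W22.WR.res Pool.Agent.W177.Wr.gal
  Pool.Agent.W460.Wr.inv Pool.Agent.W469.WR.IsoR.isoR

theorem relR' : RelRStm.{u} := Pool.Agent.W366.WRR.relR

theorem sylR' : SylRStm.{u} := Pool.Agent.W125.Wr.syl cycR' sumR' wrR' relR'

lemma QQR.congr {k : Type u} [Field k] {ι : Type} (i1 i2 : Fintype ι)
    {P : Subgroup (Equiv.Perm ι)} (h : @QQR k _ ι i1 P) : @QQR k _ ι i2 P := by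
  rwa [Subsingleton.elim i2 i1]

theorem qqR_of_tow {k : Type u} [Field k] {p m : ℕ} (hp : p.Prime) (hpk : (p : k) = 0)
    (hm : (m : k) ≠ 0) (hζ : ∃ ζ : k, IsPrimitiveRoot ζ m) {ι : Type}
    {P : Subgroup (Equiv.Perm ι)} (h : Tow (p * p * m) ι P) : ∀ i : Fintype ι, QQR k ι P := by
  classical
  induction h with
  | cyc n π hπ => exact fun i => QQR.congr _ _ (cycR' k p m hp hpk hm hζ n π hπ)
  | prod ι ι' P P' h1 h2 h h' =>
    intro i
    have := h1.finite
    have := h2.finite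
    let i1 : Fintype ι := Fintype.ofFinite ι
    let i2 : Fintype ι' := Fintype.ofFinite ι'
    exact QQR.congr _ _ (sumR' k ι ι' P P' (h i1) (h' i2))
  | wr ι ι' P P' h1 h2 h h' =>
    intro i
    have := h1.finite
    have := h2.finite
    let i1 : Fintype ι := Fintype.ofFinite ι
    let i2 : Fintype ι' := Fintype.ofFinite ι'
    exact QQR.congr _ _ (wrR' k ι ι' P P' (h i1) (h' i2))
  | rel ι ι' f P h1 h =>
    intro i
    have := h1.finite
    let i1 : Fintype ι := Fintype.ofFinite ι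
    exact QQR.congr _ _ (relR' k ι ι' f P (h i1))

section

variable {k A : Type u} [Field k] [CommRing A] [Algebra k A]

/-- The invariants of a permutation group acting on the factors of a tensor power. -/
def invAlg (k A : Type u) [Field k] [CommRing A] [Algebra k A] {n : ℕ}
    (P : Subgroup (Equiv.Perm (Fin n))) : Subalgebra k (⨂[k] _ : Fin n, A) where
  carrier := {x | ∀ σ : (⨂[k] _ : Fin n, A) ≃ₐ[k] (⨂[k] _ : Fin n, A), (∃ g ∈ P, ∀ i a,
    σ (PiTensorProduct.singleAlgHom (R := k) (A := fun _ : Fin n => A) i a) =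
      PiTensorProduct.singleAlgHom (R := k) (A := fun _ : Fin n => A) (g i) a) → σ x = x}
  mul_mem' := fun hx hy σ hσ => by rw [map_mul, hx σ hσ, hy σ hσ]
  add_mem' := fun hx hy σ hσ => by rw [map_add, hx σ hσ, hy σ hσ]
  algebraMap_mem' := fun r σ _ => σ.commutes r

end

end Pool.Agent.W559.Wr
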