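import Pool.Agent.W559.Wr.Stm
import Pool.Agent.H920R2.Gl4

set_option autoImplicit false
set_option linter.unusedSectionVars false

open AlgebraicGeometry CategoryTheory TensorProduct

universe u

namespace Pool.Agent.W559.Wr

open Pool.Agent.H920R2

/-- A smooth projective variety over a finite field is a regular model. -/
theorem regular_of_spm {k F : Type} [Field k] [Finite k] [Field F] [Algebra k F] (h : SPM k F) :
    ∃ (X' : Scheme.{0}) (_ : IsIntegral X') (g : X' ⟶ Spec (CommRingCat.of ℤ)),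
      IsProper g ∧
      (∀ x : X',
        (((Module.finrank (IsLocalRing.ResidueField (X'.presheaf.stalk x))
            (IsLocalRing.CotangentSpace (X'.presheaf.stalk x)) : ℕ∞)) : WithBot ℕ∞)
          = ringKrullDim (X'.presheaf.stalk x)) ∧
      Nonempty (X'.functionField ≃+* F) := by
  classical
  obtain ⟨l, z, hz, hsm, hgen⟩ := h
  let W : Fin (l + 1) → Set F := fun i => (Algebra.adjoin k (Set.range fun j => z j / z i) : Set F)
  have hM : ModelG k W (⊤ : IntermediateField k F).toSubfield z Set.univ :=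
    { zK := fun i => trivial
      z0 := fun j _ => hz j
      cv := by
        intro V hV
        obtain ⟨i₀, hi₀⟩ := exists_max_z z V
        refine ⟨i₀, trivial, fun i => ?_⟩
        rw [← V.valuation_le_one_iff, map_div₀]
        exact div_le_one_of_le₀ (hi₀ i) zero_le'
      sm := fun j _ => hsm j
      aa := fun j _ => ⟨j, subset_rfl⟩ }
  have hW : ∀ a, ∀ x ∈ (⊤ : IntermediateField k F), ∃ y ∈ W a, ∃ y' ∈ W a, y' ≠ 0 ∧
      x = y / y' := by
    intro a x _
    have h1 : x ∈ frF (Algebra.adjoin k (Set.range fun j => z j / z a)).val := by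
      have h2 : frF (Algebra.adjoin k (Set.range fun j => z j / z a)).val = ⊤ := by
        rw [eq_top_iff, ← hgen, IntermediateField.adjoin_le_iff]
        rintro _ ⟨j, rfl⟩
        refine ⟨⟨_, Algebra.subset_adjoin ⟨j, rfl⟩⟩, ⟨_, Algebra.subset_adjoin ⟨0, rfl⟩⟩,
          div_ne_zero (hz 0) (hz a), ?_⟩
        change z j / z 0 = (z j / z a) / (z 0 / z a)
        have := hz a
        have := hz 0
        field_simp
      rw [h2]; trivial
    obtain ⟨b, b', hb, h3⟩ := h1
    exact ⟨b, b.2, b', b'.2, hb, h3⟩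
  obtain ⟨X', hX', g, h1, h2, ⟨h3⟩⟩ := exists_regular_model (⊤ : IntermediateField k F) hM hW
  exact ⟨X', hX', g, h1, h2, ⟨h3.trans IntermediateField.topEquiv.toRingEquiv⟩⟩

/-- The permutation groups obtained from cyclic permutation groups by products and wreath
products. -/
inductive Tow (N : ℕ) : (ι : Type) → Subgroup (Equiv.Perm ι) → Prop
  | cyc (n : ℕ) (π : Equiv.Perm (Fin n)) (hπ : π ^ N = 1) : Tow N (Fin n) (Subgroup.zpowers π)
  | prod (ι ι' : Type) (P : Subgroup (Equiv.Perm ι)) (P' : Subgroup (Equiv.Perm ι')) :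
      Tow N ι P → Tow N ι' P' → Tow N (ι ⊕ ι') (prodGrp P P')
  | wr (ι ι' : Type) (P : Subgroup (Equiv.Perm ι)) (P' : Subgroup (Equiv.Perm ι')) :
      Tow N ι P → Tow N ι' P' → Tow N (ι × ι') (wrGrp P P')
  | rel (ι ι' : Type) (f : ι ≃ ι') (P : Subgroup (Equiv.Perm ι)) :
      Tow N ι P → Tow N ι' (P.map (f.permCongrHom : Equiv.Perm ι ≃* Equiv.Perm ι').toMonoidHom)

lemma Tow.finite {N : ℕ} {ι : Type} {P : Subgroup (Equiv.Perm ι)} (h : Tow N ι P) : Finite ι := by
  induction h with
  | cyc n π hπ => infer_instance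
  | prod ι ι' P P' _ _ h h' => infer_instance
  | wr ι ι' P P' _ _ h h' => infer_instance
  | rel ι ι' f P _ h => exact Finite.of_equiv ι f

lemma QQ.congr {k : Type u} [Field k] {ι : Type} (i1 i2 : Fintype ι)
    {P : Subgroup (Equiv.Perm ι)} (h : @QQ k _ ι i1 P) : @QQ k _ ι i2 P := by
  rwa [Subsingleton.elim i2 i1]

theorem qq_of_tow (hcyc : CycStm.{u}) (hsum : SumStm.{u}) (hwr : WrStm.{u}) (hrel : RelStm.{u})
    {k : Type u} [Field k] {p m : ℕ} (hp : p.Prime) (hpk : (p : k) = 0) (hm : (m : k) ≠ 0)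
    (hζ : ∃ ζ : k, IsPrimitiveRoot ζ m) {ι : Type} {P : Subgroup (Equiv.Perm ι)}
    (h : Tow (p * p * m) ι P) : ∀ i : Fintype ι, QQ k ι P := by
  classical
  induction h with
  | cyc n π hπ => exact fun i => QQ.congr _ _ (hcyc k p m hp hpk hm hζ n π hπ)
  | prod ι ι' P P' h1 h2 h h' =>
    intro i
    have := h1.finite
    have := h2.finite
    let i1 : Fintype ι := Fintype.ofFinite ι
    let i2 : Fintype ι' := Fintype.ofFinite ι'
    exact QQ.congr _ _ (hsum k ι ι' P P' (h i1) (h' i2))
  | wr ι ι' P P' h1 h2 h h' =>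
    intro i
    have := h1.finite
    have := h2.finite
    let i1 : Fintype ι := Fintype.ofFinite ι
    let i2 : Fintype ι' := Fintype.ofFinite ι'
    exact QQ.congr _ _ (hwr k ι ι' P P' (h i1) (h' i2))
  | rel ι ι' f P h1 h =>
    intro i
    have := h1.finite
    let i1 : Fintype ι := Fintype.ofFinite ι
    exact QQ.congr _ _ (hrel k ι ι' f P (h i1))

end Pool.Agent.W559.Wr
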