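import Pool.Agent.W559.Wr.AllR

/-!
Finiteness of the invariants of a permutation group acting on the factors of a tensor power.
-/

set_option autoImplicit false
set_option linter.unusedSectionVars false

open AlgebraicGeometry CategoryTheory TensorProduct

universe u

namespace Pool.Agent.W559.Wr

open Pool.Agent.H920R2

/-- The automorphisms of a tensor power given by the elements of `P`. -/
def autGrp (k A : Type u) [Field k] [CommRing A] [Algebra k A] {n : ℕ}
    (P : Subgroup (Equiv.Perm (Fin n))) : Subgroup ((⨂[k] _ : Fin n, A) ≃ₐ[k] (⨂[k] _ : Fin n, A))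
    where
  carrier := {σ | ∃ g ∈ P, ∀ i a,
    σ (PiTensorProduct.singleAlgHom (R := k) (A := fun _ : Fin n => A) i a) =
      PiTensorProduct.singleAlgHom (R := k) (A := fun _ : Fin n => A) (g i) a}
  mul_mem' := by
    rintro σ τ ⟨g, hg, h⟩ ⟨g', hg', h'⟩
    refine ⟨g * g', P.mul_mem hg hg', fun i x => ?_⟩
    rw [AlgEquiv.mul_apply, h', h]
    rfl
  one_mem' := ⟨1, P.one_mem, fun i x => rfl⟩
  inv_mem' := by
    rintro σ ⟨g, hg, h⟩
    refine ⟨g⁻¹, P.inv_mem hg, fun i x => ?_⟩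
    apply σ.injective
    rw [h, ← AlgEquiv.mul_apply, mul_inv_cancel, ← Equiv.Perm.mul_apply, mul_inv_cancel]
    rfl

lemma finite_autGrp (k A : Type u) [Field k] [CommRing A] [Algebra k A] {n : ℕ}
    (P : Subgroup (Equiv.Perm (Fin n))) : Finite (autGrp k A P) := by
  have hex : ∀ σ : autGrp k A P, ∃ g : Equiv.Perm (Fin n), ∀ i a,
      (σ : (⨂[k] _ : Fin n, A) ≃ₐ[k] (⨂[k] _ : Fin n, A))
        (PiTensorProduct.singleAlgHom (R := k) (A := fun _ : Fin n => A) i a) =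
      PiTensorProduct.singleAlgHom (R := k) (A := fun _ : Fin n => A) (g i) a := by
    rintro ⟨σ, g, hg, h⟩
    exact ⟨g, h⟩
  choose G hG using hex
  apply Finite.of_injective G
  intro σ τ hστ
  apply Subtype.ext
  apply AlgEquiv.ext
  intro x
  have hj := isCoprod_pi (k := k) (A := fun _ : Fin n => A)
  have h1 : (((σ : (⨂[k] _ : Fin n, A) ≃ₐ[k] (⨂[k] _ : Fin n, A)) :
      (⨂[k] _ : Fin n, A) →ₐ[k] (⨂[k] _ : Fin n, A))) =
      ((τ : (⨂[k] _ : Fin n, A) ≃ₐ[k] (⨂[k] _ : Fin n, A)) :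
      (⨂[k] _ : Fin n, A) →ₐ[k] (⨂[k] _ : Fin n, A)) := by
    apply hj.ext
    intro i a
    change (σ : (⨂[k] _ : Fin n, A) ≃ₐ[k] (⨂[k] _ : Fin n, A)) _ =
      (τ : (⨂[k] _ : Fin n, A) ≃ₐ[k] (⨂[k] _ : Fin n, A)) _
    rw [hG σ, hG τ, hστ]
  exact congrArg (fun f : (⨂[k] _ : Fin n, A) →ₐ[k] (⨂[k] _ : Fin n, A) => f x) h1

lemma finiteType_inv {k A : Type u} [Field k] [CommRing A] [Algebra k A] [Algebra.FiniteType k A]
    {n : ℕ} (P : Subgroup (Equiv.Perm (Fin n))) (S : Subalgebra k (⨂[k] _ : Fin n, A))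
    (hS : ∀ x, x ∈ S ↔ ∀ σ : (⨂[k] _ : Fin n, A) ≃ₐ[k] (⨂[k] _ : Fin n, A), (∃ g ∈ P, ∀ i a,
    σ (PiTensorProduct.singleAlgHom (R := k) (A := fun _ : Fin n => A) i a) =
      PiTensorProduct.singleAlgHom (R := k) (A := fun _ : Fin n => A) (g i) a) → σ x = x) :
    Algebra.FiniteType k S := by
  have hfin := finite_autGrp k A P
  have hj := isCoprod_pi (k := k) (A := fun _ : Fin n => A)
  have hft : Algebra.FiniteType k (⨂[k] _ : Fin n, A) := coprod_finiteType hj fun _ => inferInstance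
  have hinv : Algebra.IsInvariant S (⨂[k] _ : Fin n, A) (autGrp k A P) := by
    constructor
    intro b hb
    refine ⟨⟨b, (hS b).2 fun σ hσ => ?_⟩, rfl⟩
    exact hb ⟨σ, hσ⟩
  have h1 : Algebra.IsIntegral S (⨂[k] _ : Fin n, A) :=
    Algebra.IsInvariant.isIntegral S (⨂[k] _ : Fin n, A) (autGrp k A P)
  have h2 : Algebra.FiniteType S (⨂[k] _ : Fin n, A) := by
    apply Algebra.FiniteType.of_restrictScalars_finiteType k
  have h3 : Module.Finite S (⨂[k] _ : Fin n, A) := Algebra.IsIntegral.finite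
  refine ⟨?_⟩
  refine fg_of_fg_of_fg k S (⨂[k] _ : Fin n, A) ?_ h3.1 ?_
  · exact (inferInstance : Algebra.FiniteType k (⨂[k] _ : Fin n, A)).1
  · exact Subtype.val_injective

end Pool.Agent.W559.Wr
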